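import Pool.Agent.Helper353.SQF.P_chain
import Pool.Agent.Helper353.SQF.P_fin_bound

set_option autoImplicit false

namespace Pool.Agent.Results.MP_6da505_nt.SubExp

/-- There is an infinite increasing sequence of positive integers `a 0 < a 1 < ...` all of whose
pairwise sums (including `2 a i`) are squarefree, with
`a n ≤ exp (1000 √(n+1) log (n+2))` for every `n ≥ 0`. -/
theorem result : ∃ a : ℕ → ℕ, StrictMono a ∧ (∀ n, 1 ≤ a n) ∧
    (∀ i j, Squarefree (a i + a j)) ∧
    ∀ n : ℕ, (a n : ℝ) ≤ Real.exp (1000 * Real.sqrt (n + 1) * Real.log (n + 2)) := by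
  obtain ⟨a, ha, h0, hs, hb⟩ := SQF.chain
  refine ⟨a, ha, ?_, hs, ?_⟩
  · intro n
    exact le_trans h0 (ha.monotone (Nat.zero_le n))
  · intro n
    have h1 : (a n : ℝ) ≤ (((n + 1) * SQF.BB (Nat.sqrt (n + 2) + 1) : ℕ) : ℝ) := by
      exact_mod_cast hb n
    exact h1.trans (SQF.fin_bound n)

end Pool.Agent.Results.MP_6da505_nt.SubExp
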